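import Pool.Agent.Helper7.NX.BaseCells
import Pool.Agent.Helper67.NX2.Defs

/-!
# Project NX2: base, cells (NX2-A13)
-/

set_option autoImplicit false

open Finset
open scoped BigOperators ComplexConjugate

namespace Pool.Agent.Helper67.NX2

open Pool.Agent.Helper57.NX

noncomputable section

/-- The local form on `ZMod n`, `2 R ≤ n`. -/
private theorem local41 {m N : ℕ} (R n : ℕ) (hR : 1 ≤ R) (hn : 2 * R ≤ n) [NeZero n]
    (f0 : ZMod N → ℂ) (f : Fin m → ZMod N → ℂ) (r : ZMod N) (b : Fin m → ℤ)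
    (hb0 : ∀ i, 0 ≤ b i) (hb : ∀ i, b i ≤ R) :
    𝔼 y : ZMod n, (if y.val < R then f0 (r + (y.val : ZMod N)) else 0) *
      ∏ i, f i (r + ((y + (b i : ZMod n)).val : ZMod N)) =
    ((R : ℂ) / n) * 𝔼 t ∈ range R, f0 (r + (t : ZMod N)) *
      ∏ i, f i (r + (t : ZMod N) + (b i : ZMod N)) := by
  have hRC : (R : ℂ) ≠ 0 := by
    have : R ≠ 0 := by omega
    exact_mod_cast this
  have hnC : (n : ℂ) ≠ 0 := by
    have : n ≠ 0 := by omega
    exact_mod_cast this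
  rw [Fintype.expect_eq_sum_div_card, ZMod.card, expect_eq_sum_div_card, card_range]
  have h1 : ∀ y : ZMod n, (if y.val < R then f0 (r + (y.val : ZMod N)) else 0) *
      ∏ i, f i (r + ((y + (b i : ZMod n)).val : ZMod N)) =
      (fun v : ℕ => if v < R then f0 (r + (v : ZMod N)) *
        ∏ i, f i (r + (v : ZMod N) + (b i : ZMod N)) else 0) y.val := by
    intro y
    by_cases h : y.val < R
    · simp only [if_pos h]
      congr 1
      refine prod_congr rfl fun i _ => ?_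
      congr 1
      obtain ⟨n', hn'⟩ := Int.eq_ofNat_of_zero_le (hb0 i)
      have hnR : n' ≤ R := by
        have := hb i
        rw [hn'] at this
        exact_mod_cast this
      rw [hn', Int.cast_natCast, Int.cast_natCast]
      have e1 : (y + (n' : ZMod n)).val = y.val + n' := by
        have e2 : y + (n' : ZMod n) = ((y.val + n' : ℕ) : ZMod n) := by
          push_cast
          rw [ZMod.natCast_zmod_val]
        rw [e2, ZMod.val_natCast_of_lt (by omega)]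
      rw [e1]
      push_cast
      ring
    · simp only [if_neg h, zero_mul]
  rw [sum_congr rfl fun y _ => h1 y, sum_val7 n (fun v : ℕ => if v < R then
    f0 (r + (v : ZMod N)) * ∏ i, f i (r + (v : ZMod N) + (b i : ZMod N)) else 0)]
  have h2 : ∑ v ∈ range n, (if v < R then f0 (r + (v : ZMod N)) *
        ∏ i, f i (r + (v : ZMod N) + (b i : ZMod N)) else 0) =
      ∑ v ∈ range R, f0 (r + (v : ZMod N)) *
        ∏ i, f i (r + (v : ZMod N) + (b i : ZMod N)) := by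
    rw [← sum_filter]
    refine sum_congr ?_ fun _ _ => rfl
    ext v
    simp only [mem_filter, mem_range]
    omega
  rw [h2]
  field_simp

/-- One good base point. -/
private theorem good_pt41 {m : ℕ} (c : Fin (m + 1) → ℝ) (x0' : ℝ) (C' : ℕ) (σ' D0' ε : ℝ)
    (H : ∀ (S : Sys m) (N : ℕ) [NeZero N] (lam : ℕ), D0' ≤ S.D →
      IG S (fun i => c i.castSucc) N x0' lam →
      ∀ δ : ℝ, S.D ^ (-σ') ≤ δ → δ ≤ 1 / 2 → (lam : ℝ) ≤ δ⁻¹ →
      ∀ (h : ℕ → ℂ) (f0 : ZMod N → ℂ) (f : Fin m → ZMod N → ℂ),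
      (∀ k, ‖h k‖ ≤ 1) → Adm δ⁻¹ S.Q f0 → (∀ i, Adm δ⁻¹ S.Q (f i)) →
      δ ≤ ‖form S (fun i => c i.castSucc) h f0 f‖ →
      ∃ q : ℕ, 1 ≤ q ∧ (q : ℝ) ≤ δ⁻¹ ^ C' ∧ ∃ θ : Fin m → ℝ, (∀ i, |θ i| ≤ δ⁻¹ ^ C' / S.Q) ∧
        ∀ K : ℕ, 1 ≤ K → (K : ℝ) ≤ S.D ^ (1 - ε) →
          δ ^ C' ≤ 𝔼 k ∈ S.I, ‖𝔼 j ∈ range K, h (k + q * j) *
            e (∑ i, θ i * S.P i * (S.t (k + q * j)) ^ (c i.castSucc))‖)
    (S : Sys (m + 1)) (N : ℕ) [NeZero N] (lam : ℕ) (hD0 : D0' ≤ S.D) (R n : ℕ) (hR : 1 ≤ R)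
    (hn : 2 * R ≤ n) (hn8 : n ≤ 8 * R)
    (hQ0 : 0 < (S.Q : ℝ)) (hQR : (S.Q : ℝ) ≤ n)
    (hG : IG S.init (fun i => c i.castSucc) n x0' lam)
    (δ : ℝ) (hδp : 0 < δ) (hδ0 : S.D ^ (-σ') ≤ δ ^ 6) (hδ1 : δ ≤ 1 / 2) (hlam : (lam : ℝ) ≤ δ⁻¹)
    (f0 : ZMod N → ℂ) (f : Fin (m + 1) → ZMod N → ℂ) (hf0 : Adm δ⁻¹ S.Q f0)
    (hf : ∀ i, Adm δ⁻¹ S.Q (f i))
    (ha0 : ∀ i : Fin m, ∀ k ∈ S.I, 0 ≤ S.a c i.castSucc k)
    (ha1 : ∀ i : Fin m, ∀ k ∈ S.I, S.a c i.castSucc k ≤ (R : ℤ))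
    (r : ZMod N) (hr : δ / 4 ≤ ‖loc7 S c f0 f R r‖) :
    ∃ q : ℕ, 1 ≤ q ∧ (q : ℝ) ≤ δ⁻¹ ^ (6 * C') ∧
      ∃ θ : Fin m → ℝ, (∀ i, |θ i| ≤ δ⁻¹ ^ (6 * C') / S.Q) ∧
        ∀ K : ℕ, 1 ≤ K → (K : ℝ) ≤ S.D ^ (1 - ε) →
          δ ^ (6 * C') ≤ locCorrq S c q (f (Fin.last m)) (fun _ => θ) K r := by
  have : NeZero n := ⟨by omega⟩
  have hu : (2 : ℝ) ≤ δ⁻¹ := by
    rw [le_inv_comm₀ (by norm_num) hδp]
    linarith
  have hu4 : 2 * (δ⁻¹ + 1) + 2 ≤ (δ ^ 6)⁻¹ := by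
    rw [← inv_pow]
    have h2 : 4 ≤ δ⁻¹ ^ 2 := by nlinarith
    have h3 : 4 * δ⁻¹ ^ 2 ≤ δ⁻¹ ^ 4 := by nlinarith
    have h4 : δ⁻¹ ^ 4 ≤ δ⁻¹ ^ 6 := pow_le_pow_right₀ (by linarith) (by norm_num)
    nlinarith
  have hB0 : (0 : ℝ) ≤ δ⁻¹ := by linarith
  -- the functions on the cyclic group
  have hAf : ∀ i : Fin m, Adm (δ ^ 6)⁻¹ S.Q
      (fun y : ZMod n => f i.castSucc (r + (y.val : ZMod N))) := by
    intro i
    have h1 := tv_transport7 (fun v => f i.castSucc (r + (v : ZMod N)))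
      (fun v => (hf i.castSucc).bdd _) δ⁻¹ S.Q hB0 hQ0
      (fun a l => tv_nat7 (hf i.castSucc).tv r a l) n hQR
    exact h1.mono (by linarith) hQ0 (le_refl _)
  have hAf0 : Adm (δ ^ 6)⁻¹ S.Q
      (fun y : ZMod n => if y.val < R then f0 (r + (y.val : ZMod N)) else 0) := by
    have h1 := tv_transport7 (fun v => if v < R then f0 (r + (v : ZMod N)) else 0)
      (fun v => by
        by_cases hv : v < R
        · simp only [if_pos hv]
          exact hf0.bdd _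
        · simp only [if_neg hv, norm_zero]
          norm_num) (δ⁻¹ + 1) S.Q (by linarith) hQ0
      (fun a l => tv_cut7 (fun v => f0 (r + (v : ZMod N))) (fun v => hf0.bdd _) δ⁻¹ S.Q hQ0
        (fun a l => tv_nat7 hf0.tv r a l) R a l) n hQR
    exact h1.mono hu4 hQ0 (le_refl _)
  have hform : form S.init (fun i => c i.castSucc)
      (fun k => f (Fin.last m) (r + (S.a c (Fin.last m) k : ZMod N)))
      (fun y : ZMod n => if y.val < R then f0 (r + (y.val : ZMod N)) else 0)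
      (fun i y => f i.castSucc (r + (y.val : ZMod N))) = ((R : ℂ) / n) * loc7 S c f0 f R r := by
    unfold form loc7
    rw [mul_expect]
    refine expect_congr rfl fun k hk => ?_
    have h1 := local41 R n hR hn f0 (fun i : Fin m => f i.castSucc) r
      (fun i => S.a c i.castSucc k) (fun i => ha0 i k hk) (fun i => ha1 i k hk)
    have h2 : (𝔼 y : ZMod n, (if y.val < R then f0 (r + (y.val : ZMod N)) else 0) *
        ∏ i : Fin m, f i.castSucc (r + ((y + (S.init.a (fun i => c i.castSucc) i k :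
          ZMod n)).val : ZMod N))) =
        ((R : ℂ) / n) * 𝔼 t ∈ range R, f0 (r + (t : ZMod N)) *
      ∏ i : Fin m, f i.castSucc (r + (t : ZMod N) + (S.a c i.castSucc k : ZMod N)) := h1
    rw [h2]
    ring
  have hδ6 : δ ^ 6 ≤ δ / 32 := by
    have h5 : δ ^ 5 ≤ (1 / 2) ^ 5 := pow_le_pow_left₀ hδp.le hδ1 5
    have h6 : δ ^ 6 = δ * δ ^ 5 := by ring
    nlinarith
  obtain ⟨q, hq1, hq2, θ, h1, h2⟩ := H S.init n lam hD0 hG (δ ^ 6) hδ0 (by linarith)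
    (hlam.trans (by linarith))
    (fun k => f (Fin.last m) (r + (S.a c (Fin.last m) k : ZMod N)))
    (fun y : ZMod n => if y.val < R then f0 (r + (y.val : ZMod N)) else 0)
    (fun i y => f i.castSucc (r + (y.val : ZMod N)))
    (fun k => (hf (Fin.last m)).bdd _) hAf0 hAf (by
      rw [hform, norm_mul]
      have h3 : (1 / 8 : ℝ) ≤ ‖(R : ℂ) / n‖ := by
        rw [norm_div, Complex.norm_natCast, Complex.norm_natCast]
        have hn0 : (0 : ℝ) < n := by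
          have : 0 < n := by omega
          exact_mod_cast this
        rw [le_div_iff₀ hn0]
        have : (n : ℝ) ≤ 8 * R := by exact_mod_cast hn8
        linarith
      have h4 : (1 / 8 : ℝ) * (δ / 4) ≤ ‖(R : ℂ) / n‖ * ‖loc7 S c f0 f R r‖ :=
        mul_le_mul h3 hr (by positivity) (norm_nonneg _)
      linarith)
  refine ⟨q, hq1, ?_, θ, fun i => ?_, fun K hK1 hK2 => ?_⟩
  · refine hq2.trans (le_of_eq ?_)
    rw [← inv_pow, ← pow_mul]
  · refine (h1 i).trans (le_of_eq ?_)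
    rw [← inv_pow, ← pow_mul]
    rfl
  · have h3 := h2 K hK1 hK2
    rw [← pow_mul] at h3
    exact h3

private theorem exists_mod41 (Q R : ℕ) (hQ : 1 ≤ Q) (hQR : Q ≤ R) :
    ∃ p : ℕ, p.Prime ∧ 2 * R ≤ Q * p ∧ Q * p ≤ 8 * R := by
  obtain ⟨p, hp, h1, h2⟩ := Nat.exists_prime_lt_and_le_two_mul (2 * R / Q)
    (by
      have : 0 < 2 * R / Q := Nat.div_pos (by omega) (by omega)
      omega)
  refine ⟨p, hp, ?_, ?_⟩
  · have h3 : 2 * R < Q * (2 * R / Q + 1) := Nat.lt_mul_div_succ _ (by omega)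
    have h4 : Q * (2 * R / Q + 1) ≤ Q * p := Nat.mul_le_mul_left _ h1
    omega
  · have h3 : Q * p ≤ Q * (2 * (2 * R / Q)) := Nat.mul_le_mul_left _ h2
    have h4 : Q * (2 * R / Q) ≤ 2 * R := Nat.mul_div_le _ _
    nlinarith

/-- Pigeonhole. -/
private theorem pigeon41 {N : ℕ} [NeZero N] (G : Finset (ZMod N)) (q : ZMod N → ℕ) (M : ℕ)
    (hq : ∀ x ∈ G, q x ∈ range M) (η : ℝ) (hM : 0 < M)
    (hG : η * M ≤ 𝔼 x : ZMod N, (if x ∈ G then (1 : ℝ) else 0)) :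
    ∃ q0 ∈ range M, η ≤ 𝔼 x : ZMod N, (if x ∈ G ∧ q x = q0 then (1 : ℝ) else 0) := by
  by_contra hcon
  push Not at hcon
  have h1 : 𝔼 x : ZMod N, (if x ∈ G then (1 : ℝ) else 0) =
      ∑ q0 ∈ range M, 𝔼 x : ZMod N, (if x ∈ G ∧ q x = q0 then (1 : ℝ) else 0) := by
    rw [← expect_sum_comm]
    refine expect_congr rfl fun x _ => ?_
    by_cases hx : x ∈ G
    · simp only [hx, if_true, true_and]
      rw [sum_ite_eq, if_pos (hq x hx)]
    · simp [hx]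
  have h2 : ∑ q0 ∈ range M, 𝔼 x : ZMod N, (if x ∈ G ∧ q x = q0 then (1 : ℝ) else 0) <
      ∑ _q0 ∈ range M, η :=
    sum_lt_sum_of_nonempty (nonempty_range_iff.2 (by omega)) fun q0 h => hcon q0 h
  rw [sum_const, card_range, nsmul_eq_mul] at h2
  rw [h1] at hG
  linarith

theorem base_cells' (m : ℕ) (c : Fin (m + 1) → ℝ) (hc : Ex c)
    (s : ℝ) (hs0 : 0 < s) (hs : s < c (Fin.last m)) (hs1 : ∀ i : Fin m, c i.castSucc < s)
    (hD : ∀ ε : ℝ, 0 < ε → DPm m (fun i => c i.castSucc) ε) : ∀ ε : ℝ, 0 < ε →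
    ∃ x0 : ℝ, 0 < x0 ∧ ∃ C : ℕ, ∃ σ : ℝ, 0 < σ ∧ ∃ D0 : ℝ,
    ∀ (S : Sys (m + 1)) (N : ℕ) [NeZero N] (lam : ℕ), D0 ≤ S.D → IG S c N x0 lam →
    ∀ δ : ℝ, S.D ^ (-σ) ≤ δ → δ ≤ 1 / 2 → (lam : ℝ) ≤ δ⁻¹ →
    ∀ X : ℝ, (S.Q : ℝ) ≤ X → S.Q * S.D ^ (s - σ) ≤ X →
    ∀ (f0 : ZMod N → ℂ) (f : Fin (m + 1) → ZMod N → ℂ),
    Adm δ⁻¹ S.Q f0 → (∀ i, Adm δ⁻¹ S.Q (f i)) → Adm δ⁻¹ X (f (Fin.last m)) →
    δ ≤ ‖form S c 1 f0 f‖ →
    ∃ q : ℕ, 1 ≤ q ∧ (q : ℝ) ≤ δ⁻¹ ^ C ∧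
    ∃ (θ : ZMod N → Fin m → ℝ) (E : Finset (ZMod N)), (∀ x i, |θ x i| ≤ δ⁻¹ ^ C / S.Q) ∧
      ∀ K : ℕ, 1 ≤ K → (K : ℝ) ≤ S.D ^ (1 - ε) →
        δ ^ C ≤ 𝔼 x, (if x ∈ E then locCorrq S c q (f (Fin.last m)) θ K x else 0) := by
  classical
  intro ε hε
  have hc0 : ∀ i, 0 < c i := fun i => by linarith [hc.two i]
  have hcm : StrictMono c := fun i j hij => by linarith [hc.gap i j hij]
  obtain ⟨x0', hx0', C', σ', hσ', D0', H⟩ := hD ε hε
  obtain ⟨κ1, hκ1, hκ1'⟩ := exists_gap7 (fun i : Fin m => s - c i.castSucc)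
    (fun i => sub_pos.mpr (hs1 i))
  obtain ⟨κ, hκdef⟩ : ∃ κ, κ = min κ1 (min s (c (Fin.last m) - s)) := ⟨_, rfl⟩
  have hκ : 0 < κ := by
    rw [hκdef]
    exact lt_min hκ1 (lt_min hs0 (sub_pos.mpr hs))
  have hκi : ∀ i : Fin m, κ ≤ s - c i.castSucc := fun i => by
    refine le_trans ?_ (hκ1' i)
    rw [hκdef]
    exact min_le_left _ _
  have hκs : κ ≤ s := by
    rw [hκdef]
    exact (min_le_right _ _).trans (min_le_left _ _)
  have hκc : κ ≤ c (Fin.last m) - s := by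
    rw [hκdef]
    exact (min_le_right _ _).trans (min_le_right _ _)
  obtain ⟨M, hM⟩ : ∃ M : ℝ, M = 2 ^ (c (Fin.last m)) + 3 := ⟨_, rfl⟩
  have hM1 : 1 ≤ M := by
    have : (0 : ℝ) < 2 ^ c (Fin.last m) := Real.rpow_pos_of_pos (by norm_num) _
    rw [hM]
    linarith
  refine ⟨min x0' (κ / 8), lt_min hx0' (by positivity), 12 * C' + 4, min (σ' / 6) (κ / 40),
    lt_min (by positivity) (by positivity), max D0' (M ^ (2 / κ)), ?_⟩
  intro S N _ lam hD0 hIG δ hδ0 hδ1 hlam X hX1 hX2 f0 f hf0 hf hfm hform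
  have hG := hIG.good
  have hDM1 : M ^ (2 / κ) ≤ S.D := (le_max_right _ _).trans hD0
  have hD1 : 1 ≤ S.D := (Real.one_le_rpow hM1 (by positivity)).trans hDM1
  have hDp : 0 < S.D := by linarith
  have hDM : M ≤ S.D ^ (κ / 2) := by
    have h1 : (M ^ (2 / κ)) ^ (κ / 2) = M := by
      rw [← Real.rpow_mul (by linarith), show 2 / κ * (κ / 2) = 1 by field_simp, Real.rpow_one]
    rw [← h1]
    exact Real.rpow_le_rpow (Real.rpow_nonneg (by linarith) _) hDM1 (by positivity)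
  have hδp : 0 < δ := lt_of_lt_of_le (Real.rpow_pos_of_pos hDp _) hδ0
  obtain ⟨R, hRdef⟩ : ∃ R : ℕ, R = ⌊δ ^ 4 * min X (S.Q * S.D ^ s)⌋₊ := ⟨_, rfl⟩
  obtain ⟨hQp, hXp, hR1, hQR, herr, hP⟩ := sizes7 c hcm hc0 s κ (min x0' (κ / 8))
    (min (σ' / 6) (κ / 40)) M hκ hκi hκs hκc (min_le_right _ _)
    (lt_min (by positivity) (by positivity)) (min_le_right _ _) hM S N hG hD1 hDM δ hδp hδ0 hδ1
    X hX2 R hRdef
  obtain ⟨p, hp, hpn, hp8⟩ := exists_mod41 S.Q R (by exact_mod_cast hQp) (by exact_mod_cast hQR)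
  obtain ⟨n, hndef⟩ : ∃ n : ℕ, n = S.Q * p := ⟨_, rfl⟩
  rw [← hndef] at hpn hp8
  have hRn : (R : ℝ) ≤ n := by
    have : R ≤ n := by omega
    exact_mod_cast this
  -- the average of the local forms is large
  have hloc : δ / 2 ≤ 𝔼 r, ‖loc7 S c f0 f R r‖ := by
    have h1 := form_loc7 S c f0 hf0.bdd f (fun i x => (hf i).bdd x) δ⁻¹ X hXp hfm.tv R hR1
    have h2 : ‖form S c 1 f0 f‖ ≤ ‖form S c 1 f0 f - 𝔼 r, loc7 S c f0 f R r‖ +
        ‖𝔼 r, loc7 S c f0 f R r‖ := by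
      have := norm_add_le (form S c 1 f0 f - 𝔼 r, loc7 S c f0 f R r) (𝔼 r, loc7 S c f0 f R r)
      rwa [sub_add_cancel] at this
    have h3 := norm_expect_le5 univ (fun r : ZMod N => loc7 S c f0 f R r)
    linarith
  -- bounds for the sequences
  have hab : ∀ i : Fin m, ∀ k ∈ S.I, 0 ≤ S.a c i.castSucc k ∧ S.a c i.castSucc k ≤ (R : ℤ) := by
    intro i k hk
    obtain ⟨h1, h2, h3⟩ := hP i
    have h4 := a_bound7 S c i.castSucc (hc0 _).le h1 hDp hG.ρ0 hG.ρ1 hG.u2 hk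
    refine ⟨h4.1, ?_⟩
    exact_mod_cast h4.2.trans h2
  -- the smaller system is good
  have hx : min x0' (κ / 8) ≤ x0' := min_le_left _ _
  have hG' : Good S.init (fun i => c i.castSucc) n x0' := by
    refine ⟨hG.ρ0, hG.ρ1, hG.Q1, hG.Q2, fun i => ?_, fun i => ?_, fun i => ?_, ?_, hG.u1, hG.u2,
      ?_⟩
    · refine le_trans ?_ (hG.P1 i.castSucc)
      exact mul_le_mul_of_nonneg_left
        (Real.rpow_le_rpow_of_exponent_le hD1 (by linarith)) hQp.le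
    · refine le_trans (hG.P2 i.castSucc) ?_
      exact mul_le_mul_of_nonneg_left
        (Real.rpow_le_rpow_of_exponent_le hD1 (by linarith)) hQp.le
    · obtain ⟨h1, h2, h3⟩ := hP i
      have h4 : (1 : ℝ) ≤ S.D ^ x0' := Real.one_le_rpow hD1 hx0'.le
      have h5 : (R : ℝ) ≤ (n : ℝ) * S.D ^ x0' := by
        have h6 : (0 : ℝ) ≤ n := Nat.cast_nonneg _
        nlinarith
      exact h3.trans h5
    · show (S.Q : ℝ) ≤ n
      linarith
    · refine le_trans ?_ hG.T1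
      exact Real.rpow_le_rpow_of_exponent_le hD1 (by linarith)
  have hIG' : IG S.init (fun i => c i.castSucc) n x0' lam :=
    ⟨hG', hIG.Q3.trans (Real.rpow_le_rpow_of_exponent_le hD1 (by linarith)), hIG.lam1, hIG.rho,
      fun i d hd => hIG.Pint i.castSucc d hd, ⟨p, hp, hndef⟩⟩
  have hδ6 : S.D ^ (-σ') ≤ δ ^ 6 := by
    have h1 : S.D ^ (-σ') ≤ (S.D ^ (-(min (σ' / 6) (κ / 40)))) ^ 6 := by
      rw [← Real.rpow_natCast, ← Real.rpow_mul hDp.le]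
      refine Real.rpow_le_rpow_of_exponent_le hD1 ?_
      have := min_le_left (σ' / 6) (κ / 40)
      push_cast
      linarith
    exact h1.trans (pow_le_pow_left₀ (Real.rpow_nonneg hDp.le _) hδ0 6)
  have hu : (2 : ℝ) ≤ δ⁻¹ := by
    rw [le_inv_comm₀ (by norm_num) hδp]
    linarith
  have hu1 : (1 : ℝ) ≤ δ⁻¹ := by linarith
  -- the choice of the phases
  have key : ∀ r : ZMod N, ∃ q : ℕ, 1 ≤ q ∧ (q : ℝ) ≤ δ⁻¹ ^ (6 * C') ∧
      ∃ θ : Fin m → ℝ, (∀ i, |θ i| ≤ δ⁻¹ ^ (12 * C' + 4) / S.Q) ∧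
      (δ / 4 ≤ ‖loc7 S c f0 f R r‖ → ∀ K : ℕ, 1 ≤ K → (K : ℝ) ≤ S.D ^ (1 - ε) →
        δ ^ (6 * C') ≤ locCorrq S c q (f (Fin.last m)) (fun _ => θ) K r) := by
    intro r
    by_cases hr : δ / 4 ≤ ‖loc7 S c f0 f R r‖
    · obtain ⟨q, hq1, hq2, θ, h1, h2⟩ := good_pt41 c x0' C' σ' D0' ε H S N lam
        ((le_max_left _ _).trans hD0) R n hR1 hpn hp8
        hQp (by linarith) hIG' δ hδp hδ6 hδ1 hlam f0 f hf0 hf (fun i k hk => (hab i k hk).1)
        (fun i k hk => (hab i k hk).2) r hr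
      refine ⟨q, hq1, hq2, θ, fun i => (h1 i).trans ?_, fun _ => h2⟩
      exact div_le_div_of_nonneg_right (pow_le_pow_right₀ hu1 (by omega)) hQp.le
    · refine ⟨1, le_rfl, ?_, fun _ => 0, fun i => ?_, fun h => absurd h hr⟩
      · rw [Nat.cast_one]
        exact one_le_pow₀ hu1
      · rw [abs_zero]
        positivity
  choose q hq1 hq2 θ hθ1 hθ2 using key
  -- the good points
  obtain ⟨G, hGdef⟩ : ∃ G : Finset (ZMod N),
      G = univ.filter fun x => δ / 4 ≤ ‖loc7 S c f0 f R x‖ := ⟨_, rfl⟩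
  have hGmem : ∀ x, x ∈ G ↔ δ / 4 ≤ ‖loc7 S c f0 f R x‖ := fun x => by
    rw [hGdef, mem_filter]
    simp
  have hl1 : ∀ x, ‖loc7 S c f0 f R x‖ ≤ 1 := by
    intro x
    refine norm_expect_le_of5 _ _ zero_le_one fun k _ => ?_
    rw [norm_mul]
    refine mul_le_one₀ ((hf _).bdd _) (norm_nonneg _) ?_
    refine norm_expect_le_of5 _ _ zero_le_one fun t _ => ?_
    rw [norm_mul, norm_prod]
    refine mul_le_one₀ (hf0.bdd _) (prod_nonneg fun _ _ => norm_nonneg _) ?_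
    exact prod_le_one (fun _ _ => norm_nonneg _) fun i _ => (hf _).bdd _
  have hGd : δ / 4 ≤ 𝔼 x : ZMod N, (if x ∈ G then (1 : ℝ) else 0) := by
    have h1 : 𝔼 x : ZMod N, (‖loc7 S c f0 f R x‖ - δ / 4) ≤
        𝔼 x : ZMod N, (if x ∈ G then (1 : ℝ) else 0) := by
      refine expect_le_expect fun x _ => ?_
      by_cases hx : x ∈ G
      · rw [if_pos hx]
        have := hl1 x
        linarith
      · rw [if_neg hx]
        rw [hGmem] at hx
        push Not at hx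
        linarith
    rw [expect_sub_distrib, expect_const univ_nonempty] at h1
    linarith
  obtain ⟨W, hWdef⟩ : ∃ W : ℕ, W = ⌊δ⁻¹ ^ (6 * C')⌋₊ + 1 := ⟨_, rfl⟩
  have hWle : (W : ℝ) ≤ 2 * δ⁻¹ ^ (6 * C') := by
    rw [hWdef]
    push_cast
    have h1 := Nat.floor_le (show (0 : ℝ) ≤ δ⁻¹ ^ (6 * C') by positivity)
    have h2 : (1 : ℝ) ≤ δ⁻¹ ^ (6 * C') := one_le_pow₀ hu1
    linarith
  have hqW : ∀ x ∈ G, q x ∈ range W := fun x _ => by
    rw [mem_range, hWdef]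
    exact Nat.lt_succ_of_le (Nat.le_floor (hq2 x))
  obtain ⟨q0, hq0, hdens⟩ := pigeon41 G q W hqW (δ ^ (6 * C' + 4)) (by omega) (by
    refine le_trans ?_ hGd
    have h3 : δ ^ (6 * C' + 4) * W ≤ δ ^ (6 * C' + 4) * (2 * δ⁻¹ ^ (6 * C')) :=
      mul_le_mul_of_nonneg_left hWle (by positivity)
    have h4 : δ ^ (6 * C' + 4) * (2 * δ⁻¹ ^ (6 * C')) = 2 * δ ^ 4 := by
      rw [pow_add]
      have h5 : δ ^ (6 * C') * δ⁻¹ ^ (6 * C') = 1 := by
        rw [← mul_pow, mul_inv_cancel₀ hδp.ne', one_pow]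
      calc δ ^ (6 * C') * δ ^ 4 * (2 * δ⁻¹ ^ (6 * C')) =
          2 * δ ^ 4 * (δ ^ (6 * C') * δ⁻¹ ^ (6 * C')) := by ring
        _ = _ := by rw [h5, mul_one]
    have h6 : δ ^ 3 ≤ (1 / 2) ^ 3 := pow_le_pow_left₀ hδp.le hδ1 3
    have h7 : δ ^ 4 = δ * δ ^ 3 := by ring
    nlinarith)
  -- the step
  have hex : ∃ x ∈ G, q x = q0 := by
    by_contra hno
    push Not at hno
    have h1 : 𝔼 x : ZMod N, (if x ∈ G ∧ q x = q0 then (1 : ℝ) else 0) = 0 := by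
      rw [expect_congr rfl fun x _ => if_neg fun h => hno x h.1 h.2]
      simp
    rw [h1] at hdens
    have : 0 < δ ^ (6 * C' + 4) := by positivity
    linarith
  obtain ⟨x1, hx1, hx1q⟩ := hex
  refine ⟨q0, ?_, ?_, θ, G.filter fun x => q x = q0, hθ1, fun K hK1 hK2 => ?_⟩
  · rw [← hx1q]; exact hq1 x1
  · rw [← hx1q]
    exact (hq2 x1).trans (pow_le_pow_right₀ hu1 (by omega))
  · have hpt : ∀ x ∈ (univ : Finset (ZMod N)),
        δ ^ (6 * C') * (if x ∈ G ∧ q x = q0 then (1 : ℝ) else 0) ≤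
        (if x ∈ G.filter (fun x => q x = q0) then
          locCorrq S c q0 (f (Fin.last m)) θ K x else 0) := by
      intro x _
      by_cases hxG : x ∈ G ∧ q x = q0
      · rw [if_pos hxG, if_pos (mem_filter.2 hxG), mul_one]
        have h1 := hθ2 x ((hGmem x).1 hxG.1) K hK1 hK2
        rw [hxG.2] at h1
        exact h1
      · rw [if_neg hxG, if_neg (fun h => hxG (mem_filter.1 h)), mul_zero]
    refine le_trans ?_ (expect_le_expect hpt)
    rw [← mul_expect]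
    have h1 : δ ^ (12 * C' + 4) = δ ^ (6 * C') * δ ^ (6 * C' + 4) := by
      rw [← pow_add]
      congr 1
      omega
    rw [h1]
    exact mul_le_mul_of_nonneg_left hdens (by positivity)

end

end Pool.Agent.Helper67.NX2
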